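import Pool.Agent.Q224.Nu.Max

/-!
# Infinitely many maximal `(ν₃, 2)`-progressions (Q2)

For every prime `p ≡ 7 (mod 8)` the pair `(8 p², 2 p (2 p - 1))` is a `(ν₃, 2)`-progression, and no
finite set of `(ν₃, 2)`-progressions covers all of these: a progression that contains it and whose
difference is prime to `p` would contain the number `6`, but `ν₃(6) = 1`.
-/

set_option autoImplicit false

namespace Pool.Agent.Results.MP_c222f6_nt.InfinitelyManyNu3

open Finset

/-- `nu k m` is the number of partitions of `m` in which exactly `k` distinct part sizes occur. -/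
def nu (k m : ℕ) : ℕ :=
  (univ.filter (fun p : Nat.Partition m => p.parts.toFinset.card = k)).card

/-- The arithmetic progression `P(A, B) = {A n + B : n ≥ 0}`. -/
def P (A B : ℕ) : Set ℕ := {x | ∃ n : ℕ, x = A * n + B}

/-- `(A, B)` is a `(ν_k, M)`-progression: `1 ≤ B ≤ A` and `M` divides `ν_k(A n + B)` for all
`n ≥ 0`. -/
def IsProgression (k M A B : ℕ) : Prop :=
  1 ≤ A ∧ 1 ≤ B ∧ B ≤ A ∧ ∀ n : ℕ, M ∣ nu k (A * n + B)

/-- `(A, B)` is a maximal `(ν_k, M)`-progression. -/
def IsMaximal (k M A B : ℕ) : Prop :=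
  IsProgression k M A B ∧ ¬ ∃ A' B' : ℕ, IsProgression k M A' B' ∧ P A B ⊂ P A' B'

theorem isProgression_iff (k M A B : ℕ) :
    IsProgression k M A B ↔ Pool.Agent.Q224.Nu.IsProg k M A B := by
  constructor
  · rintro ⟨_, h1, h2, h3⟩
    exact ⟨h1, h2, h3⟩
  · rintro ⟨h1, h2, h3⟩
    exact ⟨h1.trans h2, h1, h2, h3⟩

theorem isMaximal_iff (k M A B : ℕ) :
    IsMaximal k M A B ↔ Pool.Agent.Q224.Nu.IsMaxProg k M A B := by
  unfold IsMaximal Pool.Agent.Q224.Nu.IsMaxProg
  rw [isProgression_iff]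
  simp only [isProgression_iff]
  exact Iff.rfl

/-- **Answer to Q2.** There are infinitely many maximal `(ν₃, 2)`-progressions. -/
theorem result : {q : ℕ × ℕ | IsMaximal 3 2 q.1 q.2}.Infinite := by
  have h := Pool.Agent.Q224.Nu.infinite_three
  have e : {q : ℕ × ℕ | IsMaximal 3 2 q.1 q.2} =
      {AB : ℕ × ℕ | Pool.Agent.Q224.Nu.IsMaxProg 3 2 AB.1 AB.2} := by
    ext q
    exact isMaximal_iff 3 2 q.1 q.2
  rw [e]
  exact h

end Pool.Agent.Results.MP_c222f6_nt.InfinitelyManyNu3
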